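import Mathlib
import Pool.Agent.Y245.UC.Stm

/-!
# Project UC: change of the base point in the Volterra equation
-/

set_option autoImplicit false

open Complex MeasureTheory Metric Set Filter Topology ComplexConjugate
open Pool.Agent.Y245.SC Pool.Agent.Y245.UC

namespace Pool.Agent.Y845.UC

theorem ustep : U_STEP := by
  intro hK hS hP φ F H a b u u' V ha hφ hVo hVc hVb hF hu hu' ⟨hH, hE⟩
  have hkap : Differentiable ℂ (kap a) := (hK a ha.le).1
  have hdφ : DifferentiableOn ℂ (deriv φ) (ball 0 1) := hφ.deriv isOpen_ball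
  have hKd : DifferentiableOn ℂ (fun p : ℂ × ℂ => kerU a φ p.1 p.2 (F p.1 - b))
      (V ×ˢ ball (0 : ℂ) 1) := by
    have h1 : DifferentiableOn ℂ (fun p : ℂ × ℂ => F p.1) (V ×ˢ ball (0 : ℂ) 1) :=
      hF.comp differentiableOn_fst (fun p hp => hp.1)
    have h2 : DifferentiableOn ℂ (fun p : ℂ × ℂ => φ p.1) (V ×ˢ ball (0 : ℂ) 1) :=
      hφ.comp differentiableOn_fst (fun p hp => hVb hp.1)
    have h3 : DifferentiableOn ℂ (fun p : ℂ × ℂ => φ p.2) (V ×ˢ ball (0 : ℂ) 1) :=
      hφ.comp differentiableOn_snd (fun p hp => hp.2)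
    have h4 : DifferentiableOn ℂ (fun p : ℂ × ℂ => deriv φ p.1) (V ×ˢ ball (0 : ℂ) 1) :=
      hdφ.comp differentiableOn_fst (fun p hp => hVb hp.1)
    have h5 : DifferentiableOn ℂ (fun p : ℂ × ℂ => (F p.1 - b) * (φ p.1 - φ p.2))
        (V ×ˢ ball (0 : ℂ) 1) := (h1.sub_const b).mul (h2.sub h3)
    exact (((h1.sub_const b).pow 2).mul (hkap.comp_differentiableOn h5)).mul h4
  have hseg : ∀ z ∈ V, ∀ t ∈ Icc (0 : ℝ) 1, ∀ w ∈ V, z + t * (w - z) ∈ V := by
    intro z hz t ht w hw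
    have := hVc.add_smul_sub_mem hz hw ht
    simpa [Complex.real_smul] using this
  have hH' : DifferentiableOn ℂ
      (fun u0 => H u0 + seg (fun v => kerU a φ v u0 (F v - b)) u u') (ball 0 1) := by
    refine hH.add ?_
    refine hP (ball 0 1) (fun u0 t => (fun p : ℂ × ℂ => kerU a φ p.1 p.2 (F p.1 - b))
      (u + t * (u' - u), u0) * (u' - u)) isOpen_ball ?_ ?_
    · refine ContinuousOn.mul ?_ continuousOn_const
      refine hKd.continuousOn.comp (f := fun p : ℂ × ℝ => (u + p.2 * (u' - u), p.1))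
        (by fun_prop) ?_
      rintro ⟨z, t⟩ ⟨hz, ht⟩
      exact ⟨hseg u hu t ht u' hu', hz⟩
    · intro t ht
      refine DifferentiableOn.mul_const ?_ _
      refine hKd.comp (f := fun z : ℂ => (u + t * (u' - u), z)) (by fun_prop) ?_
      intro z hz
      exact ⟨hseg u hu t ht u' hu', hz⟩
  have hL : DifferentiableOn ℂ (fun u0 => seg (fun v => kerU a φ v u0 (F v - b)) u u0) V := by
    refine hP V (fun u0 t => (fun p : ℂ × ℂ => kerU a φ p.1 p.2 (F p.1 - b))
      (u + t * (u0 - u), u0) * (u0 - u)) hVo ?_ ?_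
    · refine ContinuousOn.mul ?_ (by fun_prop)
      refine hKd.continuousOn.comp (f := fun p : ℂ × ℝ => (u + p.2 * (p.1 - u), p.1))
        (by fun_prop) ?_
      rintro ⟨z, t⟩ ⟨hz, ht⟩
      exact ⟨hseg u hu t ht z hz, hVb hz⟩
    · intro t ht
      refine DifferentiableOn.mul ?_ (by fun_prop)
      refine hKd.comp (f := fun z : ℂ => (u + t * (z - u), z)) (by fun_prop) ?_
      intro z hz
      exact ⟨hseg u hu t ht z hz, hVb hz⟩
  have hmain : ∀ u0 ∈ V, F u0 - b = H u0 + seg (fun v => kerU a φ v u0 (F v - b)) u u0 := by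
    have hA : AnalyticOnNhd ℂ (fun u0 => F u0 - b) V := (hF.sub_const b).analyticOnNhd hVo
    have hB : AnalyticOnNhd ℂ
        (fun u0 => H u0 + seg (fun v => kerU a φ v u0 (F v - b)) u u0) V :=
      ((hH.mono hVb).add hL).analyticOnNhd hVo
    exact fun u0 h0 => hA.eqOn_of_preconnected_of_eventuallyEq hB hVc.isPreconnected hu hE h0
  refine ⟨hH', ?_⟩
  filter_upwards [hVo.mem_nhds hu'] with u0 h0
  have h6 : DifferentiableOn ℂ (fun v => kerU a φ v u0 (F v - b)) V := by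
    refine hKd.comp (f := fun v : ℂ => (v, u0)) (by fun_prop) ?_
    intro z hz
    exact ⟨hz, hVb h0⟩
  have h7 := (hS V _ hVo hVc h6).1 u hu u' hu' u0 h0
  rw [hmain u0 h0, ← h7]
  ring

end Pool.Agent.Y845.UC
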